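import Pool.Agent.WW12.Lines

/-!
# The asymptotic choice of the parameters
-/

namespace Pool.Agent.WW12

open Filter Topology

lemma choose_lower (m f : ℕ) (hf : 0 < f) :
    (((m : ℝ) + 1) / f) ^ f ≤ ((m + f).choose m : ℝ) := by
  have h1 : (((m + f) + 1 - f : ℕ) ^ f : ℝ) ≤ (f.factorial : ℝ) * ((m + f).choose f : ℝ) := by
    have := Nat.pow_le_choose (α := ℝ) f (m + f)
    rw [div_le_iff₀ (by positivity)] at this
    linarith
  have h2 : ((m + f) + 1 - f : ℕ) = m + 1 := by omega
  rw [h2] at h1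
  have h3 : (f.factorial : ℝ) ≤ (f : ℝ) ^ f := by
    exact_mod_cast Nat.factorial_le_pow f
  have h4 : (m + f).choose m = (m + f).choose f := by
    rw [← Nat.choose_symm_of_eq_add (n := m + f) (a := m) (b := f) rfl]
  rw [h4, div_pow, div_le_iff₀ (by positivity)]
  push_cast at h1
  calc ((m : ℝ) + 1) ^ f ≤ (f.factorial : ℝ) * ((m + f).choose f : ℝ) := h1
    _ ≤ (f : ℝ) ^ f * ((m + f).choose f : ℝ) := by gcongr
    _ = ((m + f).choose f : ℝ) * (f : ℝ) ^ f := by ring

lemma tendsto_log_nat : Tendsto (fun n : ℕ => Real.log n) atTop atTop :=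
  Real.tendsto_log_atTop.comp tendsto_natCast_atTop_atTop

lemma tendsto_log_div_self : Tendsto (fun x : ℝ => Real.log x / x) atTop (𝓝 0) := by
  have h := Real.isLittleO_log_id_atTop
  simpa using h.tendsto_div_nhds_zero

lemma tendsto_log_div_nat : Tendsto (fun n : ℕ => Real.log n / n) atTop (𝓝 0) :=
  tendsto_log_div_self.comp tendsto_natCast_atTop_atTop

lemma exists_mf (ε : ℝ) (hε : 0 < ε) : ∀ᶠ n : ℕ in atTop, ∀ d : ℕ,
    (Real.log 2 / 2 + ε) * (n : ℝ) ^ 2 / Real.log n ≤ d →
      ∃ m f : ℕ, 0 < m ∧ n * 2 ^ (n - 2) < (m + f).choose m ∧ m + (n + 1) / 2 * f ≤ d := by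
  set a : ℝ := Real.log 2 + ε with ha
  have hlog2 : 0 < Real.log 2 := Real.log_pos (by norm_num)
  have hapos : 0 < a := by linarith
  have hL := tendsto_log_nat
  -- the conditions
  have c1 : ∀ᶠ n : ℕ in atTop, (1 : ℝ) ≤ Real.log n := hL.eventually_ge_atTop 1
  have c2 : Tendsto (fun n : ℕ => a * ((Real.log (a + 1) + Real.log (Real.log n)) / Real.log n)
      + Real.log n / n) atTop (𝓝 0) := by
    have h1 : Tendsto (fun n : ℕ => Real.log (a + 1) / Real.log n) atTop (𝓝 0) :=
      hL.const_div_atTop _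
    have h2 : Tendsto (fun n : ℕ => Real.log (Real.log n) / Real.log n) atTop (𝓝 0) :=
      tendsto_log_div_self.comp hL
    have h3 := ((h1.add h2).const_mul a).add tendsto_log_div_nat
    simp only [add_zero, mul_zero] at h3
    refine h3.congr (fun n => ?_)
    rw [add_div]
  have c2' := c2.eventually (gt_mem_nhds hε)
  have c3 : Tendsto (fun n : ℕ => 1 / Real.log n + 2 * (Real.log n / n) + a / 2 * (1 / (n : ℝ)))
      atTop (𝓝 0) := by
    have h1 : Tendsto (fun n : ℕ => 1 / Real.log (n : ℝ)) atTop (𝓝 0) := hL.const_div_atTop _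
    have h2 : Tendsto (fun n : ℕ => 1 / (n : ℝ)) atTop (𝓝 0) :=
      tendsto_one_div_atTop_nhds_zero_nat
    have h3 := (h1.add (tendsto_log_div_nat.const_mul 2)).add (h2.const_mul (a / 2))
    simpa using h3
  have c3' := c3.eventually (gt_mem_nhds (show (0 : ℝ) < ε / 2 by linarith))
  filter_upwards [c1, c2', c3', eventually_ge_atTop 3] with n h1 h2 h3 h4 d hd
  set x : ℝ := (n : ℝ) with hx
  set L : ℝ := Real.log x with hLdef
  have hx3 : (3 : ℝ) ≤ x := by rw [hx]; exact_mod_cast h4
  have hxpos : 0 < x := by linarith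
  have hLpos : 0 < L := by linarith
  have hLx : L ≤ x := by
    have := Real.log_le_sub_one_of_pos hxpos
    linarith
  set f : ℕ := ⌈a * x / L⌉₊ with hf
  set m : ℕ := ⌈x ^ 2 / L ^ 2⌉₊ with hm
  have hq1 : 1 ≤ x / L := by
    rw [le_div_iff₀ hLpos]; linarith
  have hfge : a * x / L ≤ f := Nat.le_ceil _
  have hfle : (f : ℝ) ≤ a * x / L + 1 := by
    have := Nat.ceil_lt_add_one (show 0 ≤ a * x / L by positivity)
    linarith
  have hmge : x ^ 2 / L ^ 2 ≤ m := Nat.le_ceil _
  have hmle : (m : ℝ) ≤ x ^ 2 / L ^ 2 + 1 := by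
    have := Nat.ceil_lt_add_one (show 0 ≤ x ^ 2 / L ^ 2 by positivity)
    linarith
  have hfpos : 0 < f := Nat.ceil_pos.mpr (by positivity)
  have hmpos : 0 < m := Nat.ceil_pos.mpr (by positivity)
  have hfR : (0 : ℝ) < f := by exact_mod_cast hfpos
  refine ⟨m, f, hmpos, ?_, ?_⟩
  · -- the binomial coefficient
    have hfle2 : (f : ℝ) ≤ (a + 1) * x / L := by
      have : (a + 1) * x / L = a * x / L + x / L := by ring
      linarith
    have hratio : x / ((a + 1) * L) ≤ ((m : ℝ) + 1) / f := by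
      rw [div_le_div_iff₀ (by positivity) hfR]
      have h5 : x * f ≤ x * ((a + 1) * x / L) := by gcongr
      have h6 : x * ((a + 1) * x / L) = (x ^ 2 / L ^ 2) * ((a + 1) * L) := by
        field_simp
      have h7 : (x ^ 2 / L ^ 2) * ((a + 1) * L) ≤ ((m : ℝ) + 1) * ((a + 1) * L) := by
        have : x ^ 2 / L ^ 2 ≤ (m : ℝ) + 1 := by linarith
        gcongr
      linarith
    have hlogr : Real.log (x / ((a + 1) * L)) = L - (Real.log (a + 1) + Real.log L) := by
      rw [Real.log_div (by positivity) (by positivity),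
        Real.log_mul (by positivity) (by positivity)]
    have hchoose := choose_lower m f hfpos
    have hkey : x * Real.log 2 + L < f * Real.log (x / ((a + 1) * L)) := by
      rw [hlogr]
      have h5 : 0 < L - (Real.log (a + 1) + Real.log L) := by
        have h6 : (Real.log (a + 1) + Real.log L) / L < 1 := by
          have h7 : 0 < L / x := by positivity
          have h8 : a * ((Real.log (a + 1) + Real.log L) / L) < a * 1 := by linarith
          exact lt_of_mul_lt_mul_left h8 hapos.le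
        rw [div_lt_one hLpos] at h6
        linarith
      have h9 : (a * x / L) * (L - (Real.log (a + 1) + Real.log L)) ≤
          f * (L - (Real.log (a + 1) + Real.log L)) := by gcongr
      have h10 : (a * x / L) * (L - (Real.log (a + 1) + Real.log L)) =
          x * (a - a * ((Real.log (a + 1) + Real.log L) / L)) := by
        field_simp
      have h11 : x * (L / x) = L := by field_simp
      have h12 : x * Real.log 2 + L < x * (a - a * ((Real.log (a + 1) + Real.log L) / L)) := by
        have h13 : x * (Real.log 2 + L / x) <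
            x * (a - a * ((Real.log (a + 1) + Real.log L) / L)) := by
          apply mul_lt_mul_of_pos_left _ hxpos
          linarith
        rw [mul_add, h11] at h13
        exact h13
      linarith
    have hpow : x * 2 ^ n < ((m + f).choose m : ℝ) := by
      have h5 : Real.log (x * 2 ^ n) < Real.log (((m : ℝ) + 1) / f) * f := by
        rw [Real.log_mul (by positivity) (by positivity), Real.log_pow]
        have h6 : Real.log (x / ((a + 1) * L)) ≤ Real.log (((m : ℝ) + 1) / f) :=
          Real.log_le_log (by positivity) hratio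
        have h7 : f * Real.log (x / ((a + 1) * L)) ≤ f * Real.log (((m : ℝ) + 1) / f) := by
          gcongr
        have h8 : (n : ℝ) * Real.log 2 = x * Real.log 2 := rfl
        linarith
      have h9 : Real.log (((m : ℝ) + 1) / f) * f = Real.log ((((m : ℝ) + 1) / f) ^ f) := by
        rw [Real.log_pow]; ring
      rw [h9] at h5
      have h10 := (Real.log_lt_log_iff (by positivity) (by positivity)).mp h5
      linarith
    have h5 : (n * 2 ^ (n - 2) : ℕ) ≤ (x * 2 ^ n : ℝ) := by
      push_cast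
      have : (2 : ℝ) ^ (n - 2) ≤ 2 ^ n := pow_le_pow_right₀ (by norm_num) (by omega)
      gcongr
    have h6 : ((n * 2 ^ (n - 2) : ℕ) : ℝ) < ((m + f).choose m : ℝ) := lt_of_le_of_lt h5 hpow
    exact_mod_cast h6
  · -- the dimension
    have h5 : (((n + 1) / 2 : ℕ) : ℝ) ≤ (x + 1) / 2 := by
      have := @Nat.cast_div_le ℝ _ _ _ (n + 1) 2
      push_cast at this
      exact this
    have h6 : ((m + (n + 1) / 2 * f : ℕ) : ℝ) ≤
        (x ^ 2 / L ^ 2 + 1) + (x + 1) / 2 * (a * x / L + 1) := by
      push_cast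
      have h7 : (((n + 1) / 2 : ℕ) : ℝ) * (f : ℝ) ≤ (x + 1) / 2 * (a * x / L + 1) := by
        apply mul_le_mul h5 hfle hfR.le (by positivity)
      have h8 : (((n + 1) / 2 : ℕ) : ℝ) = ((((n : ℕ) + 1) / 2 : ℕ) : ℝ) := rfl
      push_cast at h7 ⊢
      linarith
    have h9 : (x ^ 2 / L ^ 2 + 1) + (x + 1) / 2 * (a * x / L + 1) ≤
        (Real.log 2 / 2 + ε) * x ^ 2 / L := by
      have h10 : (Real.log 2 / 2 + ε) * x ^ 2 / L = a / 2 * x ^ 2 / L + ε / 2 * (x ^ 2 / L) := by
        rw [ha]; ring
      have h11 : (x ^ 2 / L) * (1 / L + 2 * (L / x) + a / 2 * (1 / x)) ≤ (x ^ 2 / L) * (ε / 2) := by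
        gcongr
      have h12 : (x ^ 2 / L) * (1 / L + 2 * (L / x) + a / 2 * (1 / x)) =
          x ^ 2 / L ^ 2 + 2 * x + a / 2 * (x / L) := by
        field_simp
      have h13 : (x + 1) / 2 * (a * x / L + 1) = a / 2 * x ^ 2 / L + a / 2 * (x / L) + (x + 1) / 2 := by
        field_simp
      rw [h10, h13]
      rw [h12] at h11
      nlinarith
    have h14 : ((m + (n + 1) / 2 * f : ℕ) : ℝ) ≤ (d : ℝ) := le_trans h6 (le_trans h9 hd)
    exact_mod_cast h14

theorem eventually_weakWin (ε : ℝ) (hε : 0 < ε) : ∀ᶠ n : ℕ in atTop, ∀ d : ℕ,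
    (Real.log 2 / 2 + ε) * (n : ℝ) ^ 2 / Real.log n ≤ d → WeakWin n d := by
  filter_upwards [exists_mf ε hε, eventually_ge_atTop 2] with n h hn d hd
  obtain ⟨m, f, hm, h1, h2⟩ := h d hd
  exact weakWin_of_choose n m f d hn hm h1 h2

end Pool.Agent.WW12
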