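import Pool.Agent.WW12.Defs

/-!
# The weak win criterion (Beck), for indexed families
-/

namespace Pool.Agent.WW12

open Finset

section
variable {V : Type} [Fintype V] [DecidableEq V] {ι : Type} [Fintype ι]

/-- potential: sum of `2^|A_i ∩ M|` over the sets that miss `B` -/
noncomputable def pot (A : ι → Finset V) (M B : Finset V) : ℕ :=
  ∑ i ∈ univ.filter (fun i => Disjoint (A i) B), 2 ^ (A i ∩ M).card

/-- the part of the potential at the point `x` -/
noncomputable def potAt (A : ι → Finset V) (M B : Finset V) (x : V) : ℕ :=
  ∑ i ∈ univ.filter (fun i => Disjoint (A i) B ∧ x ∈ A i), 2 ^ (A i ∩ M).card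

lemma pot_insert_left (A : ι → Finset V) (M B : Finset V) (x : V) (hx : x ∉ M) :
    pot A (insert x M) B = pot A M B + potAt A M B x := by
  classical
  unfold pot potAt
  rw [show (univ.filter (fun i => Disjoint (A i) B ∧ x ∈ A i)) =
    (univ.filter (fun i => Disjoint (A i) B)).filter (fun i => x ∈ A i) by
      rw [Finset.filter_filter]]
  rw [Finset.sum_filter (s := univ.filter (fun i => Disjoint (A i) B)) (p := fun i => x ∈ A i),
    ← Finset.sum_add_distrib]
  refine Finset.sum_congr rfl (fun i _ => ?_)
  by_cases h : x ∈ A i
  · have h1 : A i ∩ insert x M = insert x (A i ∩ M) := by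
      rw [Finset.inter_insert_of_mem h]
    have h2 : x ∉ A i ∩ M := fun h3 => hx (Finset.mem_inter.mp h3).2
    rw [h1, Finset.card_insert_of_notMem h2, if_pos h, pow_succ]
    ring
  · rw [Finset.inter_insert_of_notMem h, if_neg h]
    simp

lemma pot_insert_right (A : ι → Finset V) (M B : Finset V) (y : V) :
    pot A M B = pot A M (insert y B) + potAt A M B y := by
  classical
  unfold pot potAt
  have h1 : univ.filter (fun i => Disjoint (A i) B) =
      univ.filter (fun i => Disjoint (A i) (insert y B)) ∪
        univ.filter (fun i => Disjoint (A i) B ∧ y ∈ A i) := by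
    ext i
    simp only [mem_filter, mem_univ, true_and, mem_union, Finset.disjoint_insert_right]
    tauto
  have h2 : Disjoint (univ.filter (fun i => Disjoint (A i) (insert y B)))
      (univ.filter (fun i => Disjoint (A i) B ∧ y ∈ A i)) := by
    rw [Finset.disjoint_left]
    intro i hi hi'
    simp only [mem_filter, mem_univ, true_and, Finset.disjoint_insert_right] at hi hi'
    exact hi.1 hi'.2
  rw [h1, Finset.sum_union h2]

lemma potAt_insert_left (A : ι → Finset V) (M B : Finset V) (x y : V) (hx : x ∉ M) :
    potAt A (insert x M) B y = potAt A M B y +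
      ∑ i ∈ univ.filter (fun i => Disjoint (A i) B ∧ x ∈ A i ∧ y ∈ A i), 2 ^ (A i ∩ M).card := by
  classical
  unfold potAt
  rw [show (univ.filter (fun i => Disjoint (A i) B ∧ x ∈ A i ∧ y ∈ A i)) =
    (univ.filter (fun i => Disjoint (A i) B ∧ y ∈ A i)).filter (fun i => x ∈ A i) by
      rw [Finset.filter_filter]; ext i; simp only [mem_filter, mem_univ, true_and]; tauto]
  rw [Finset.sum_filter (s := univ.filter (fun i => Disjoint (A i) B ∧ y ∈ A i))
    (p := fun i => x ∈ A i), ← Finset.sum_add_distrib]
  refine Finset.sum_congr rfl (fun i _ => ?_)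
  by_cases h : x ∈ A i
  · have h1 : A i ∩ insert x M = insert x (A i ∩ M) := by
      rw [Finset.inter_insert_of_mem h]
    have h2 : x ∉ A i ∩ M := fun h3 => hx (Finset.mem_inter.mp h3).2
    rw [h1, Finset.card_insert_of_notMem h2, if_pos h, pow_succ]
    ring
  · rw [Finset.inter_insert_of_notMem h, if_neg h]
    simp

/-- one round -/
lemma pot_round (A : ι → Finset V) (n Δ : ℕ) (hn : ∀ i, (A i).card = n)
    (hΔ : ∀ x y, x ≠ y → (univ.filter (fun i => x ∈ A i ∧ y ∈ A i)).card ≤ Δ)
    (M B : Finset V) (x y : V) (hx : x ∉ M) (hy : y ∉ M) (hxy : x ≠ y)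
    (hle : potAt A M B y ≤ potAt A M B x) :
    pot A M B ≤ pot A (insert x M) (insert y B) + Δ * 2 ^ (n - 2) := by
  classical
  have h1 := pot_insert_left A M B x hx
  have h2 := pot_insert_right A (insert x M) B y
  have h3 := potAt_insert_left A M B x y hx
  have h4 : ∑ i ∈ univ.filter (fun i => Disjoint (A i) B ∧ x ∈ A i ∧ y ∈ A i),
      2 ^ (A i ∩ M).card ≤ Δ * 2 ^ (n - 2) := by
    calc ∑ i ∈ univ.filter (fun i => Disjoint (A i) B ∧ x ∈ A i ∧ y ∈ A i), 2 ^ (A i ∩ M).card
        ≤ ∑ _i ∈ univ.filter (fun i => Disjoint (A i) B ∧ x ∈ A i ∧ y ∈ A i), 2 ^ (n - 2) := by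
          refine Finset.sum_le_sum (fun i hi => ?_)
          simp only [mem_filter, mem_univ, true_and] at hi
          refine Nat.pow_le_pow_right (by norm_num) ?_
          have h5 : insert x (insert y (A i ∩ M)) ⊆ A i := by
            intro z hz
            simp only [Finset.mem_insert, Finset.mem_inter] at hz
            rcases hz with rfl | rfl | hz
            · exact hi.2.1
            · exact hi.2.2
            · exact hz.1
          have h6 : x ∉ insert y (A i ∩ M) := by
            simp only [Finset.mem_insert, Finset.mem_inter, not_or, not_and]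
            exact ⟨hxy, fun _ => hx⟩
          have h7 : y ∉ A i ∩ M := fun h => hy (Finset.mem_inter.mp h).2
          have h8 := Finset.card_le_card h5
          rw [Finset.card_insert_of_notMem h6, Finset.card_insert_of_notMem h7, hn i] at h8
          omega
      _ = (univ.filter (fun i => Disjoint (A i) B ∧ x ∈ A i ∧ y ∈ A i)).card * 2 ^ (n - 2) := by
          rw [Finset.sum_const, smul_eq_mul]
      _ ≤ Δ * 2 ^ (n - 2) := by
          refine Nat.mul_le_mul_right _ (le_trans (Finset.card_le_card ?_) (hΔ x y hxy))
          intro i hi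
          simp only [mem_filter, mem_univ, true_and] at hi ⊢
          exact hi.2
  omega

/-- a round in which the second player moves outside the sets -/
lemma pot_round_out (A : ι → Finset V) (M B : Finset V) (x y : V) (hx : x ∉ M)
    (hy : ∀ i, y ∉ A i) :
    pot A M B ≤ pot A (insert x M) (insert y B) := by
  classical
  have h1 := pot_insert_left A M B x hx
  have h2 := pot_insert_right A (insert x M) B y
  have h3 : potAt A (insert x M) B y = 0 := by
    unfold potAt
    refine Finset.sum_eq_zero (fun i hi => ?_)
    simp only [mem_filter, mem_univ, true_and] at hi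
    exact absurd hi.2 (hy i)
  omega

/-- the move of the first player in the position `(M, B)` -/
noncomputable def best [Nonempty V] (A : ι → Finset V) (M B : Finset V) : V :=
  if h : ((univ.biUnion A) \ (M ∪ B)).Nonempty then
    (Finset.exists_max_image ((univ.biUnion A) \ (M ∪ B)) (potAt A M B) h).choose
  else if h' : ∃ x, x ∉ M ∪ B then h'.choose else Classical.arbitrary V

lemma best_spec [Nonempty V] (A : ι → Finset V) (M B : Finset V)
    (h : ((univ.biUnion A) \ (M ∪ B)).Nonempty) :
    best A M B ∈ (univ.biUnion A) \ (M ∪ B) ∧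
      ∀ y ∈ (univ.biUnion A) \ (M ∪ B), potAt A M B y ≤ potAt A M B (best A M B) := by
  have h1 := (Finset.exists_max_image ((univ.biUnion A) \ (M ∪ B)) (potAt A M B) h).choose_spec
  unfold best
  rw [dif_pos h]
  exact h1

lemma best_free [Nonempty V] (A : ι → Finset V) (M B : Finset V) (h' : ∃ x, x ∉ M ∪ B) :
    best A M B ∉ M ∪ B := by
  by_cases h : ((univ.biUnion A) \ (M ∪ B)).Nonempty
  · exact (Finset.mem_sdiff.mp (best_spec A M B h).1).2
  · unfold best
    rw [dif_neg h, dif_pos h']
    exact h'.choose_spec

open Classical in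
/-- points of a list with even index -/
noncomputable def evPts (l : List V) : Finset V :=
  univ.filter (fun p => ∃ k : ℕ, Even k ∧ l[k]? = some p)

open Classical in
/-- points of a list with odd index -/
noncomputable def odPts (l : List V) : Finset V :=
  univ.filter (fun p => ∃ k : ℕ, Odd k ∧ l[k]? = some p)

lemma evPts_union_odPts (l : List V) (p : V) : p ∈ evPts l ∪ odPts l ↔ p ∈ l := by
  classical
  unfold evPts odPts
  simp only [Finset.mem_union, mem_filter, mem_univ, true_and]
  constructor
  · rintro (⟨k, -, hk⟩ | ⟨k, -, hk⟩)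
    · exact List.mem_of_getElem? hk
    · exact List.mem_of_getElem? hk
  · intro hp
    obtain ⟨k, hk⟩ := List.getElem?_of_mem hp
    rcases Nat.even_or_odd k with h | h
    · exact Or.inl ⟨k, h, hk⟩
    · exact Or.inr ⟨k, h, hk⟩

lemma getElem?_map_range (π : ℕ → V) (k j : ℕ) (p : V) :
    ((List.range k).map π)[j]? = some p ↔ j < k ∧ π j = p := by
  rw [List.getElem?_map]
  by_cases h : j < k
  · rw [List.getElem?_range h]
    simp [h]
  · rw [List.getElem?_eq_none (by simpa using h)]
    simp [h]

lemma mem_evPts (π : ℕ → V) (k : ℕ) (p : V) :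
    p ∈ evPts ((List.range k).map π) ↔ ∃ j < k, Even j ∧ π j = p := by
  unfold evPts
  simp only [mem_filter, mem_univ, true_and, getElem?_map_range]
  constructor
  · rintro ⟨j, h1, h2, h3⟩; exact ⟨j, h2, h1, h3⟩
  · rintro ⟨j, h1, h2, h3⟩; exact ⟨j, h2, h1, h3⟩

lemma mem_odPts (π : ℕ → V) (k : ℕ) (p : V) :
    p ∈ odPts ((List.range k).map π) ↔ ∃ j < k, Odd j ∧ π j = p := by
  unfold odPts
  simp only [mem_filter, mem_univ, true_and, getElem?_map_range]
  constructor
  · rintro ⟨j, h1, h2, h3⟩; exact ⟨j, h2, h1, h3⟩
  · rintro ⟨j, h1, h2, h3⟩; exact ⟨j, h2, h1, h3⟩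

/-- The weak win criterion. -/
theorem criterion [Nonempty V] (A : ι → Finset V) (n Δ : ℕ) (hn : ∀ i, (A i).card = n)
    (hΔ : ∀ x y, x ≠ y → (univ.filter (fun i => x ∈ A i ∧ y ∈ A i)).card ≤ Δ)
    (hbig : Δ * 2 ^ (n - 2) * (univ.biUnion A).card < 2 * Fintype.card ι) :
    ∃ σ : List V → V, IsStrategy σ ∧ ∀ π : ℕ → V, IsPlay σ π →
      ∃ i, ∀ p ∈ A i, ∃ k < Fintype.card V, Even k ∧ π k = p := by
  classical
  set σ : List V → V := fun l => best A (evPts l) (odPts l) with hσ
  refine ⟨σ, ?_, ?_⟩
  · intro l hl hlen hmem
    have h1 : ∃ x, x ∉ evPts l ∪ odPts l := by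
      by_contra hcon
      have h2 : ∀ x, x ∈ l := fun x => (evPts_union_odPts l x).mp
        (by by_contra h3; exact hcon ⟨x, h3⟩)
      have h3 : Fintype.card V ≤ l.length := by
        calc Fintype.card V = (univ : Finset V).card := rfl
          _ ≤ l.toFinset.card := Finset.card_le_card (fun x _ => List.mem_toFinset.mpr (h2 x))
          _ ≤ l.length := List.toFinset_card_le l
      omega
    exact best_free A _ _ h1 ((evPts_union_odPts l _).mpr hmem)
  · intro π hπ
    obtain ⟨hinj, hmove⟩ := hπ
    set N := Fintype.card V with hN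
    set U := univ.biUnion A with hU
    set M : ℕ → Finset V := fun k => evPts ((List.range k).map π) with hM
    set B : ℕ → Finset V := fun k => odPts ((List.range k).map π) with hB
    have hMmem : ∀ k p, p ∈ M k ↔ ∃ j < k, Even j ∧ π j = p := fun k p => mem_evPts π k p
    have hBmem : ∀ k p, p ∈ B k ↔ ∃ j < k, Odd j ∧ π j = p := fun k p => mem_odPts π k p
    -- the invariant
    have hinv : ∀ r : ℕ, 2 * r ≤ N →
        Δ * 2 ^ (n - 2) * (U \ (M (2 * r) ∪ B (2 * r))).card < 2 * pot A (M (2 * r)) (B (2 * r)) := by
      intro r
      induction r with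
      | zero =>
        intro _
        have h1 : M (2 * 0) = ∅ := by
          ext p; simp [hMmem]
        have h2 : B (2 * 0) = ∅ := by
          ext p; simp [hBmem]
        rw [h1, h2]
        have h3 : pot A ∅ ∅ = Fintype.card ι := by
          unfold pot
          simp
        rw [h3]
        simpa using hbig
      | succ r ih =>
        intro hr
        have ih := ih (by omega)
        set x := π (2 * r) with hx
        set y := π (2 * r + 1) with hy
        have hMs : M (2 * (r + 1)) = insert x (M (2 * r)) := by
          ext p
          rw [hMmem, Finset.mem_insert, hMmem]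
          constructor
          · rintro ⟨j, hj, hj2, hj3⟩
            rcases Nat.lt_or_ge j (2 * r) with h | h
            · exact Or.inr ⟨j, h, hj2, hj3⟩
            · left
              have : j = 2 * r := by
                rcases hj2 with ⟨q, hq⟩
                omega
              rw [← hj3, this]
          · rintro (rfl | ⟨j, hj, hj2, hj3⟩)
            · exact ⟨2 * r, by omega, even_two_mul r, rfl⟩
            · exact ⟨j, by omega, hj2, hj3⟩
        have hBs : B (2 * (r + 1)) = insert y (B (2 * r)) := by
          ext p
          rw [hBmem, Finset.mem_insert, hBmem]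
          constructor
          · rintro ⟨j, hj, hj2, hj3⟩
            rcases Nat.lt_or_ge j (2 * r) with h | h
            · exact Or.inr ⟨j, h, hj2, hj3⟩
            · left
              have : j = 2 * r + 1 := by
                rcases hj2 with ⟨q, hq⟩
                omega
              rw [← hj3, this]
          · rintro (rfl | ⟨j, hj, hj2, hj3⟩)
            · exact ⟨2 * r + 1, by omega, odd_two_mul_add_one r, rfl⟩
            · exact ⟨j, by omega, hj2, hj3⟩
        have hfree : ∀ i, 2 * r ≤ i → i < N → π i ∉ M (2 * r) ∪ B (2 * r) := by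
          intro i h1 h2 h3
          rw [Finset.mem_union, hMmem, hBmem] at h3
          rcases h3 with ⟨j, hj, -, hj3⟩ | ⟨j, hj, -, hj3⟩
          · have := hinj (show j < N by omega) h2 hj3
            omega
          · have := hinj (show j < N by omega) h2 hj3
            omega
        have hxf := hfree (2 * r) le_rfl (by omega)
        have hyf := hfree (2 * r + 1) (by omega) (by omega)
        have hxy : x ≠ y := by
          intro h
          have := hinj (show 2 * r < N by omega) (show 2 * r + 1 < N by omega) h
          omega
        have hxb : x = best A (M (2 * r)) (B (2 * r)) :=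
          hmove (2 * r) (by omega) (even_two_mul r)
        have hxM : x ∉ M (2 * r) := fun h => hxf (Finset.mem_union_left _ h)
        have hyM : y ∉ M (2 * r) := fun h => hyf (Finset.mem_union_left _ h)
        rw [hMs, hBs]
        by_cases hne : (U \ (M (2 * r) ∪ B (2 * r))).Nonempty
        · obtain ⟨hb1, hb2⟩ := best_spec A (M (2 * r)) (B (2 * r)) hne
          rw [← hxb, ← hU] at hb1
          rw [← hxb, ← hU] at hb2
          by_cases hyU : y ∈ U
          · -- the second player answers inside
            have hyS : y ∈ U \ (M (2 * r) ∪ B (2 * r)) := Finset.mem_sdiff.mpr ⟨hyU, hyf⟩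
            have h1 := pot_round A n Δ hn hΔ (M (2 * r)) (B (2 * r)) x y hxM hyM hxy (hb2 y hyS)
            have h2 : (U \ (insert x (M (2 * r)) ∪ insert y (B (2 * r)))).card + 2 =
                (U \ (M (2 * r) ∪ B (2 * r))).card := by
              have h3 : U \ (insert x (M (2 * r)) ∪ insert y (B (2 * r))) =
                  ((U \ (M (2 * r) ∪ B (2 * r))).erase x).erase y := by
                ext z
                simp only [Finset.mem_sdiff, Finset.mem_union, Finset.mem_insert,
                  Finset.mem_erase]
                tauto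
              have h4 : y ∈ (U \ (M (2 * r) ∪ B (2 * r))).erase x :=
                Finset.mem_erase.mpr ⟨fun h => hxy h.symm, hyS⟩
              rw [h3, Finset.card_erase_of_mem h4, Finset.card_erase_of_mem hb1]
              have h5 : 1 < (U \ (M (2 * r) ∪ B (2 * r))).card :=
                Finset.one_lt_card.mpr ⟨x, hb1, y, hyS, hxy⟩
              omega
            rw [← h2] at ih
            nlinarith
          · -- the second player answers outside
            have h1 := pot_round_out A (M (2 * r)) (B (2 * r)) x y hxM (fun i hi =>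
              hyU (Finset.mem_biUnion.mpr ⟨i, mem_univ i, hi⟩))
            have h2 : (U \ (insert x (M (2 * r)) ∪ insert y (B (2 * r)))).card ≤
                (U \ (M (2 * r) ∪ B (2 * r))).card := by
              refine Finset.card_le_card ?_
              intro z
              simp only [Finset.mem_sdiff, Finset.mem_union, Finset.mem_insert]
              tauto
            have h3 : Δ * 2 ^ (n - 2) * (U \ (insert x (M (2 * r)) ∪ insert y (B (2 * r)))).card ≤
                Δ * 2 ^ (n - 2) * (U \ (M (2 * r) ∪ B (2 * r))).card :=
              Nat.mul_le_mul_left _ h2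
            omega
        · -- all points of the sets are taken
          have h0 : U \ (M (2 * r) ∪ B (2 * r)) = ∅ := Finset.not_nonempty_iff_eq_empty.mp hne
          have hyU : y ∉ U := by
            intro h
            have : y ∈ U \ (M (2 * r) ∪ B (2 * r)) := Finset.mem_sdiff.mpr ⟨h, hyf⟩
            rw [h0] at this
            exact absurd this (Finset.notMem_empty y)
          have h1 := pot_round_out A (M (2 * r)) (B (2 * r)) x y hxM (fun i hi =>
            hyU (Finset.mem_biUnion.mpr ⟨i, mem_univ i, hi⟩))
          have h2 : (U \ (insert x (M (2 * r)) ∪ insert y (B (2 * r)))) = ∅ := by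
            rw [← Finset.subset_empty, ← h0]
            intro z
            simp only [Finset.mem_sdiff, Finset.mem_union, Finset.mem_insert]
            tauto
          rw [h2]
          rw [h0] at ih
          simp only [Finset.card_empty, mul_zero] at ih ⊢
          omega
    -- every point is claimed
    have hsurj : ∀ p : V, ∃ k < N, π k = p := by
      intro p
      have h1 : ((Finset.range N).image π).card = N := by
        rw [Finset.card_image_of_injOn, Finset.card_range]
        intro a ha b hb hab
        exact hinj (by simpa using ha) (by simpa using hb) hab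
      have h2 : (Finset.range N).image π = univ := by
        refine Finset.eq_univ_of_card _ ?_
        rw [h1]
      have h3 : p ∈ (Finset.range N).image π := by rw [h2]; exact mem_univ p
      obtain ⟨k, hk, hk2⟩ := Finset.mem_image.mp h3
      exact ⟨k, by simpa using hk, hk2⟩
    -- the last even position
    have hlast := hinv (N / 2) (by omega)
    have hpos : 0 < pot A (M (2 * (N / 2))) (B (2 * (N / 2))) := by omega
    unfold pot at hpos
    obtain ⟨i, hi, -⟩ := Finset.exists_ne_zero_of_sum_ne_zero (Nat.pos_iff_ne_zero.mp hpos)
    simp only [mem_filter, mem_univ, true_and] at hi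
    refine ⟨i, fun p hp => ?_⟩
    obtain ⟨k, hk, hkp⟩ := hsurj p
    refine ⟨k, hk, ?_, hkp⟩
    by_contra hodd
    rw [Nat.not_even_iff_odd] at hodd
    have h1 : p ∈ B (2 * (N / 2)) := by
      rw [hBmem]
      refine ⟨k, ?_, hodd, hkp⟩
      rcases hodd with ⟨q, hq⟩
      omega
    exact (Finset.disjoint_left.mp hi) hp h1

end

end Pool.Agent.WW12
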