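import Mathlib

/-!
# The `n^d` game: lines, strategies, plays, Weak Win (definitions)

Points of the board are the functions `Fin d → Fin n`; the value `t` of `Fin n` stands for the
number `t + 1` of `[n]`, so `Fin.rev t` stands for `n + 1 - (t + 1)`.
-/

namespace Pool.Agent.WW12

/-- A geometric line of the board `[n]^d`: every coordinate is constant, equal to `t`, or equal to
`n + 1 - t`, and at least one coordinate is not constant. -/
def IsLine (n d : ℕ) (S : Set (Fin d → Fin n)) : Prop :=
  ∃ g : Fin d → Fin n → Fin n,
    (∀ i, (∃ a, ∀ t, g i t = a) ∨ (∀ t, g i t = t) ∨ (∀ t, g i t = Fin.rev t)) ∧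
    (∃ i, ¬ ∃ a, ∀ t, g i t = a) ∧
    S = Set.range (fun t i => g i t)

/-- A strategy of the first player: a rule that answers every list of different points already
claimed (in the order of the moves), the board not being full, with an unclaimed point. -/
def IsStrategy {V : Type} [Fintype V] (σ : List V → V) : Prop :=
  ∀ l : List V, l.Nodup → l.length < Fintype.card V → σ l ∉ l

/-- A complete play in which the first player follows `σ`. The moves are numbered
`0, 1, 2, …, |V| - 1`; they claim different points, so at the end the board is full; the first
player makes the moves with even number, the second player those with odd number. -/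
def IsPlay {V : Type} [Fintype V] (σ : List V → V) (π : ℕ → V) : Prop :=
  Set.InjOn π {k | k < Fintype.card V} ∧
    ∀ k < Fintype.card V, Even k → π k = σ ((List.range k).map π)

/-- The first player can force a Weak Win in the `n^d` game: he has a strategy such that in every
complete play in which he follows it he gets all points of some line. -/
def WeakWin (n d : ℕ) : Prop :=
  ∃ σ : List (Fin d → Fin n) → (Fin d → Fin n), IsStrategy σ ∧
    ∀ π : ℕ → (Fin d → Fin n), IsPlay σ π →
      ∃ S, IsLine n d S ∧
        ∀ p ∈ S, ∃ k < Fintype.card (Fin d → Fin n), Even k ∧ π k = p

/-- `ww(n-line)`: the least `D` such that for every `d ≥ D` the first player can force a Weak Win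
in the `n^d` game. -/
noncomputable def ww (n : ℕ) : ℕ := sInf {D : ℕ | ∀ d : ℕ, D ≤ d → WeakWin n d}

end Pool.Agent.WW12
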