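import Pool.Agent.WW12.Criterion

/-!
# The balanced lines
-/

namespace Pool.Agent.WW12

open Finset

/-- value of a coordinate of a template at the time `t` -/
def ev {n : ℕ} : Fin n ⊕ Bool → Fin n → Fin n
  | Sum.inl a, _ => a
  | Sum.inr false, t => t
  | Sum.inr true, t => Fin.rev t

/-- class of a value: `a` and `n + 1 - a` have the same class -/
def cl {n : ℕ} (a : Fin n) : ℕ := min a.val (n - 1 - a.val)

lemma cl_rev {n : ℕ} (a : Fin n) : cl (Fin.rev a) = cl a := by
  unfold cl
  rw [Fin.val_rev]
  have := a.isLt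
  omega

lemma cl_eq {n : ℕ} {a b : Fin n} (h : cl a = cl b) : a = b ∨ a = Fin.rev b := by
  unfold cl at h
  have ha := a.isLt
  have hb := b.isLt
  by_cases h1 : a = b
  · exact Or.inl h1
  · right
    have h2 : a.val ≠ b.val := fun h3 => h1 (Fin.ext h3)
    apply Fin.ext
    rw [Fin.val_rev]
    omega

lemma cl_lt {n : ℕ} (a : Fin n) : cl a < (n + 1) / 2 := by
  unfold cl
  have := a.isLt
  omega

lemma ev_inr_injective {n : ℕ} (b : Bool) : Function.Injective (ev (n := n) (Sum.inr b)) := by
  intro s t h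
  cases b
  · exact h
  · exact Fin.rev_injective h

lemma cl_ev_inr {n : ℕ} (b : Bool) (t : Fin n) : cl (ev (Sum.inr b) t) = cl t := by
  cases b
  · rfl
  · exact cl_rev t

/-- a template is determined at a coordinate by its values at two times -/
lemma ev_eq {n : ℕ} {u v : Fin n ⊕ Bool} {s t : Fin n} (hst : s ≠ t)
    (h1 : ev u s = ev v s) (h2 : ev u t = ev v t) : u = v := by
  rcases u with a | b
  · rcases v with a' | b'
    · rw [show a = a' from h1]
    · exfalso
      have h3 : ev (Sum.inr b') s = ev (Sum.inr b') t := by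
        rw [← h1, ← h2]; rfl
      exact hst (ev_inr_injective b' h3)
  · rcases v with a' | b'
    · exfalso
      have h3 : ev (Sum.inr b) s = ev (Sum.inr b) t := by
        rw [h1, h2]; rfl
      exact hst (ev_inr_injective b h3)
    · have hrev : ∀ x : Fin n, x = Fin.rev x → 2 * x.val + 1 = n := by
        intro x hx
        have h4 := congrArg Fin.val hx
        rw [Fin.val_rev] at h4
        have := x.isLt
        omega
      cases b <;> cases b'
      · rfl
      · exfalso
        have h3 := hrev s h1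
        have h4 := hrev t h2
        exact hst (Fin.ext (by omega))
      · exfalso
        have h3 := hrev s h1.symm
        have h4 := hrev t h2.symm
        exact hst (Fin.ext (by omega))
      · rfl

section
variable {n d : ℕ} [NeZero n] {κ : Type} [Fintype κ] [DecidableEq κ]

/-- the template on the coordinates `Fin d` -/
noncomputable def ext (e : κ ↪ Fin d) (τ : κ → Fin n ⊕ Bool) : Fin d → Fin n ⊕ Bool :=
  Function.extend e τ (fun _ => Sum.inl 0)

lemma ext_apply (e : κ ↪ Fin d) (τ : κ → Fin n ⊕ Bool) (k : κ) : ext e τ (e k) = τ k :=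
  e.injective.extend_apply _ _ _

lemma ext_of_notMem (e : κ ↪ Fin d) (τ : κ → Fin n ⊕ Bool) (i : Fin d) (h : ¬ ∃ k, e k = i) :
    ext e τ i = Sum.inl 0 := Function.extend_apply' _ _ _ h

/-- the point of the line at the time `t` -/
noncomputable def pt (e : κ ↪ Fin d) (τ : κ → Fin n ⊕ Bool) (t : Fin n) : Fin d → Fin n :=
  fun i => ev (ext e τ i) t

lemma pt_apply (e : κ ↪ Fin d) (τ : κ → Fin n ⊕ Bool) (t : Fin n) (k : κ) :
    pt e τ t (e k) = ev (τ k) t := by
  unfold pt; rw [ext_apply]

lemma pt_eq_pt (e : κ ↪ Fin d) (τ τ' : κ → Fin n ⊕ Bool) (t t' : Fin n)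
    (h : ∀ k, ev (τ k) t = ev (τ' k) t') : pt e τ t = pt e τ' t' := by
  funext i
  by_cases hi : ∃ k, e k = i
  · obtain ⟨k, rfl⟩ := hi
    rw [pt_apply, pt_apply, h k]
  · unfold pt
    rw [ext_of_notMem e τ i hi, ext_of_notMem e τ' i hi]
    rfl

/-- the point set of the line -/
noncomputable def ln (e : κ ↪ Fin d) (τ : κ → Fin n ⊕ Bool) : Finset (Fin d → Fin n) :=
  univ.image (pt e τ)

lemma mem_ln (e : κ ↪ Fin d) (τ : κ → Fin n ⊕ Bool) (p : Fin d → Fin n) :
    p ∈ ln e τ ↔ ∃ t, pt e τ t = p := by
  unfold ln; simp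

lemma pt_injective (e : κ ↪ Fin d) (τ : κ → Fin n ⊕ Bool) (h : ∃ k b, τ k = Sum.inr b) :
    Function.Injective (pt e τ) := by
  obtain ⟨k, b, hk⟩ := h
  intro s t hst
  have h1 := congrFun hst (e k)
  rw [pt_apply, pt_apply, hk] at h1
  exact ev_inr_injective b h1

lemma card_ln (e : κ ↪ Fin d) (τ : κ → Fin n ⊕ Bool) (h : ∃ k b, τ k = Sum.inr b) :
    (ln e τ).card = n := by
  unfold ln
  rw [Finset.card_image_of_injective _ (pt_injective e τ h), Finset.card_univ, Fintype.card_fin]

lemma isLine_ln (hn : 2 ≤ n) (e : κ ↪ Fin d) (τ : κ → Fin n ⊕ Bool)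
    (h : ∃ k b, τ k = Sum.inr b) : IsLine n d (ln e τ : Set (Fin d → Fin n)) := by
  obtain ⟨k, b, hk⟩ := h
  refine ⟨fun i t => ev (ext e τ i) t, ?_, ⟨e k, ?_⟩, ?_⟩
  · intro i
    rcases hi : ext e τ i with a | b'
    · exact Or.inl ⟨a, fun t => by simp only [hi]; rfl⟩
    · cases b'
      · exact Or.inr (Or.inl fun t => by simp only [hi]; rfl)
      · exact Or.inr (Or.inr fun t => by simp only [hi]; rfl)
  · rintro ⟨a, ha⟩
    have h1 : ∀ s t : Fin n, s = t := by
      intro s t
      have h2 : ev (Sum.inr b) s = ev (Sum.inr b) t := by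
        have h3 := ha s
        have h4 := ha t
        simp only [ext_apply, hk] at h3 h4
        rw [h3, h4]
      exact ev_inr_injective b h2
    have h5 := congrArg Fin.val (h1 ⟨0, by omega⟩ ⟨1, by omega⟩)
    simp at h5
  · ext p
    simp only [Finset.mem_coe, mem_ln, Set.mem_range]
    rfl

/-- at most two templates pass through two different points -/
lemma pair_degree (e : κ ↪ Fin d) (x y : Fin d → Fin n) (hxy : x ≠ y) :
    ∃ k : Fin d, ∀ τ τ' : κ → Fin n ⊕ Bool, x ∈ ln e τ → y ∈ ln e τ → x ∈ ln e τ' → y ∈ ln e τ' →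
      (∃ b, ext e τ k = Sum.inr b) ∧ (ext e τ k = ext e τ' k → τ = τ') := by
  obtain ⟨i, hi⟩ := Function.ne_iff.mp hxy
  refine ⟨i, fun τ τ' hx hy hx' hy' => ?_⟩
  rw [mem_ln] at hx hy hx' hy'
  obtain ⟨s, hs⟩ := hx
  obtain ⟨t, ht⟩ := hy
  obtain ⟨s', hs'⟩ := hx'
  obtain ⟨t', ht'⟩ := hy'
  have hb : ∃ b, ext e τ i = Sum.inr b := by
    rcases h : ext e τ i with a | b
    · exfalso
      apply hi
      rw [← hs, ← ht]
      unfold pt
      rw [h]
      rfl
    · exact ⟨b, rfl⟩
  refine ⟨hb, fun heq => ?_⟩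
  obtain ⟨b, hb⟩ := hb
  have hb' : ext e τ' i = Sum.inr b := by rw [← heq, hb]
  have h1 : s = s' := by
    have h2 : pt e τ s i = pt e τ' s' i := by rw [hs, hs']
    unfold pt at h2
    rw [hb, hb'] at h2
    exact ev_inr_injective b h2
  have h3 : t = t' := by
    have h2 : pt e τ t i = pt e τ' t' i := by rw [ht, ht']
    unfold pt at h2
    rw [hb, hb'] at h2
    exact ev_inr_injective b h2
  subst h1
  subst h3
  have hst : s ≠ t := by
    intro h4
    apply hxy
    rw [← hs, ← ht, h4]
  funext k
  have h5 : ev (τ k) s = ev (τ' k) s := by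
    rw [← pt_apply e τ s k, ← pt_apply e τ' s k, hs, hs']
  have h6 : ev (τ k) t = ev (τ' k) t := by
    rw [← pt_apply e τ t k, ← pt_apply e τ' t k, ht, ht']
  exact ev_eq hst h5 h6

end

/-- class of a fixed coordinate, `none` for a moving one -/
def cc {n : ℕ} : Fin n ⊕ Bool → Option ℕ
  | Sum.inl a => some (cl a)
  | Sum.inr _ => none

lemma cl_ev {n : ℕ} (u : Fin n ⊕ Bool) (t : Fin n) : cl (ev u t) = (cc u).getD (cl t) := by
  rcases u with a | b
  · rfl
  · exact cl_ev_inr b t

section
variable {n d : ℕ} [NeZero n] {κ : Type} [Fintype κ] [DecidableEq κ]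

/-- the balanced templates: exactly `m` moving coordinates, exactly `f` fixed coordinates of each
class -/
def Bal (m f : ℕ) (τ : κ → Fin n ⊕ Bool) : Prop :=
  (univ.filter (fun k => cc (τ k) = none)).card = m ∧
    ∀ c < (n + 1) / 2, (univ.filter (fun k => cc (τ k) = some c)).card = f

noncomputable instance (m f : ℕ) : Fintype {τ : κ → Fin n ⊕ Bool // Bal m f τ} :=
  Fintype.ofFinite _

lemma Bal.exists_inr {m f : ℕ} {τ : κ → Fin n ⊕ Bool} (h : Bal m f τ) (hm : 0 < m) :
    ∃ k b, τ k = Sum.inr b := by
  have h1 : 0 < (univ.filter (fun k => cc (τ k) = none)).card := by rw [h.1]; exact hm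
  obtain ⟨k, hk⟩ := Finset.card_pos.mp h1
  simp only [mem_filter, mem_univ, true_and] at hk
  rcases h2 : τ k with a | b
  · rw [h2] at hk
    exact absurd hk (by simp [cc])
  · exact ⟨k, b, h2⟩

/-- the template through the point with the moving coordinates `S` -/
noncomputable def retem (τ : κ → Fin n ⊕ Bool) (t : Fin n) (S : Finset κ) : κ → Fin n ⊕ Bool :=
  fun k => if k ∈ S then (if ev (τ k) t = t then Sum.inr false else Sum.inr true)
    else Sum.inl (ev (τ k) t)

lemma cc_retem (τ : κ → Fin n ⊕ Bool) (t : Fin n) (S : Finset κ) (k : κ) :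
    cc (retem τ t S k) = if k ∈ S then none else some (cl (ev (τ k) t)) := by
  unfold retem
  split_ifs <;> rfl

lemma retem_bal {m f : ℕ} {τ : κ → Fin n ⊕ Bool} (h : Bal m f τ) (t : Fin n) (S : Finset κ)
    (hS : S ⊆ univ.filter (fun k => cl (ev (τ k) t) = cl t)) (hcard : S.card = m) :
    Bal m f (retem τ t S) := by
  constructor
  · rw [← hcard]
    congr 1
    ext k
    simp only [mem_filter, mem_univ, true_and, cc_retem]
    by_cases hk : k ∈ S <;> simp [hk]
  · intro c hc
    have h1 : univ.filter (fun k => cc (retem τ t S k) = some c) =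
        (univ.filter (fun k => cl (ev (τ k) t) = c)) \ S := by
      ext k
      simp only [mem_filter, mem_univ, true_and, cc_retem, Finset.mem_sdiff]
      by_cases hk : k ∈ S <;> simp [hk]
    rw [h1]
    by_cases hct : c = cl t
    · subst hct
      have h2 : (univ.filter (fun k => cl (ev (τ k) t) = cl t)).card = m + f := by
        have h3 : univ.filter (fun k => cl (ev (τ k) t) = cl t) =
            univ.filter (fun k => cc (τ k) = none) ∪
              univ.filter (fun k => cc (τ k) = some (cl t)) := by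
          ext k
          simp only [mem_filter, mem_univ, true_and, Finset.mem_union, cl_ev]
          rcases cc (τ k) with _ | c'
          · simp
          · simp
        rw [h3, Finset.card_union_of_disjoint, h.1, h.2 _ hc]
        rw [Finset.disjoint_left]
        intro k hk hk'
        simp only [mem_filter, mem_univ, true_and] at hk hk'
        rw [hk] at hk'
        exact absurd hk' (by simp)
      rw [Finset.card_sdiff_of_subset hS, h2, hcard]
      omega
    · have h2 : (univ.filter (fun k => cl (ev (τ k) t) = c)) \ S =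
          univ.filter (fun k => cc (τ k) = some c) := by
        ext k
        simp only [mem_filter, mem_univ, true_and, Finset.mem_sdiff]
        constructor
        · rintro ⟨h3, -⟩
          rw [cl_ev] at h3
          rcases h4 : cc (τ k) with _ | c'
          · rw [h4] at h3
            exact absurd h3.symm hct
          · rw [h4] at h3
            simpa using h3
        · intro h3
          refine ⟨by rw [cl_ev, h3]; rfl, fun h4 => ?_⟩
          have h5 := hS h4
          simp only [mem_filter, mem_univ, true_and] at h5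
          rw [cl_ev, h3] at h5
          exact hct h5
      rw [h2, h.2 c hc]

lemma card_class {m f : ℕ} {τ : κ → Fin n ⊕ Bool} (h : Bal m f τ) (t : Fin n) :
    (univ.filter (fun k => cl (ev (τ k) t) = cl t)).card = m + f := by
  have h3 : univ.filter (fun k => cl (ev (τ k) t) = cl t) =
      univ.filter (fun k => cc (τ k) = none) ∪
        univ.filter (fun k => cc (τ k) = some (cl t)) := by
    ext k
    simp only [mem_filter, mem_univ, true_and, Finset.mem_union, cl_ev]
    rcases cc (τ k) with _ | c'
    · simp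
    · simp
  rw [h3, Finset.card_union_of_disjoint, h.1, h.2 _ (cl_lt t)]
  rw [Finset.disjoint_left]
  intro k hk hk'
  simp only [mem_filter, mem_univ, true_and] at hk hk'
  rw [hk] at hk'
  exact absurd hk' (by simp)

lemma pt_retem (e : κ ↪ Fin d) (τ : κ → Fin n ⊕ Bool) (t : Fin n) (S : Finset κ)
    (hS : S ⊆ univ.filter (fun k => cl (ev (τ k) t) = cl t)) :
    pt e (retem τ t S) t = pt e τ t := by
  refine pt_eq_pt e _ _ t t (fun k => ?_)
  unfold retem
  by_cases hk : k ∈ S
  · have h1 := hS hk
    simp only [mem_filter, mem_univ, true_and] at h1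
    by_cases h2 : ev (τ k) t = t
    · rw [if_pos hk, if_pos h2]
      exact h2.symm
    · rw [if_pos hk, if_neg h2]
      rcases cl_eq h1 with h3 | h3
      · exact absurd h3 h2
      · exact h3.symm
  · rw [if_neg hk]
    rfl

/-- every point of a balanced line is on at least `C(m+f, m)` balanced templates -/
lemma degree_lower (e : κ ↪ Fin d) {m f : ℕ} {τ : κ → Fin n ⊕ Bool} (h : Bal m f τ)
    (p : Fin d → Fin n) (hp : p ∈ ln e τ) :
    (m + f).choose m ≤
      (univ.filter (fun i : {τ : κ → Fin n ⊕ Bool // Bal m f τ} => p ∈ ln e i.1)).card := by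
  classical
  rw [mem_ln] at hp
  obtain ⟨t, ht⟩ := hp
  set C := univ.filter (fun k => cl (ev (τ k) t) = cl t) with hC
  have h1 : (powersetCard m C).card = (m + f).choose m := by
    rw [Finset.card_powersetCard, card_class h t]
  rw [← h1]
  refine Finset.card_le_card_of_injOn
    (fun S => if hS : S ∈ powersetCard m C then
      (⟨retem τ t S, retem_bal h t S (Finset.mem_powersetCard.mp hS).1
        (Finset.mem_powersetCard.mp hS).2⟩ : {τ : κ → Fin n ⊕ Bool // Bal m f τ})
      else ⟨τ, h⟩) ?_ ?_
  · intro S hS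
    have hS' : S ∈ powersetCard m C := hS
    simp only [dif_pos hS', Finset.coe_filter, mem_univ, true_and, Set.mem_ofPred_eq]
    rw [mem_ln]
    exact ⟨t, by rw [pt_retem e τ t S (Finset.mem_powersetCard.mp hS').1, ht]⟩
  · intro S hS S' hS' heq
    have hS1 : S ∈ powersetCard m C := hS
    have hS1' : S' ∈ powersetCard m C := hS'
    simp only [dif_pos hS1, dif_pos hS1'] at heq
    have h2 := congrArg Subtype.val heq
    ext k
    have h3 := congrArg cc (congrFun h2 k)
    rw [cc_retem, cc_retem] at h3
    by_cases hk : k ∈ S <;> by_cases hk' : k ∈ S' <;> simp_all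

/-- counting incidences -/
lemma count (e : κ ↪ Fin d) {m f : ℕ} (hm : 0 < m) :
    (m + f).choose m *
      (univ.biUnion (fun i : {τ : κ → Fin n ⊕ Bool // Bal m f τ} => ln e i.1)).card ≤
      n * Fintype.card {τ : κ → Fin n ⊕ Bool // Bal m f τ} := by
  classical
  set U := univ.biUnion (fun i : {τ : κ → Fin n ⊕ Bool // Bal m f τ} => ln e i.1) with hU
  have h1 : ∑ p ∈ U, (univ.filter
      (fun i : {τ : κ → Fin n ⊕ Bool // Bal m f τ} => p ∈ ln e i.1)).card =
      ∑ i : {τ : κ → Fin n ⊕ Bool // Bal m f τ}, (U.filter (fun p => p ∈ ln e i.1)).card := by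
    simp only [Finset.card_filter]
    exact Finset.sum_comm
  have h2 : ∀ i : {τ : κ → Fin n ⊕ Bool // Bal m f τ},
      (U.filter (fun p => p ∈ ln e i.1)).card = n := by
    intro i
    have h3 : U.filter (fun p => p ∈ ln e i.1) = ln e i.1 := by
      ext p
      simp only [mem_filter, hU, mem_biUnion, mem_univ, true_and]
      exact ⟨fun h => h.2, fun h => ⟨⟨i, h⟩, h⟩⟩
    rw [h3, card_ln e i.1 (i.2.exists_inr hm)]
  calc (m + f).choose m * U.card = ∑ _p ∈ U, (m + f).choose m := by
        rw [Finset.sum_const, smul_eq_mul, mul_comm]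
    _ ≤ ∑ p ∈ U, (univ.filter
          (fun i : {τ : κ → Fin n ⊕ Bool // Bal m f τ} => p ∈ ln e i.1)).card := by
        refine Finset.sum_le_sum (fun p hp => ?_)
        obtain ⟨i, -, hi⟩ := Finset.mem_biUnion.mp hp
        exact degree_lower e i.2 p hi
    _ = ∑ i : {τ : κ → Fin n ⊕ Bool // Bal m f τ}, (U.filter (fun p => p ∈ ln e i.1)).card := h1
    _ = n * Fintype.card {τ : κ → Fin n ⊕ Bool // Bal m f τ} := by
        rw [Finset.sum_congr rfl (fun i _ => h2 i), Finset.sum_const, Finset.card_univ,
          smul_eq_mul, mul_comm]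

end

/-- the finite criterion for the `n^d` game -/
theorem weakWin_of_choose (n m f d : ℕ) (hn : 2 ≤ n) (hm : 0 < m)
    (h : n * 2 ^ (n - 2) < (m + f).choose m) (hd : m + (n + 1) / 2 * f ≤ d) : WeakWin n d := by
  classical
  have : NeZero n := ⟨by omega⟩
  set κ := Fin m ⊕ (Fin ((n + 1) / 2) × Fin f) with hκ
  have hcard : Fintype.card κ = m + (n + 1) / 2 * f := by
    simp [hκ]
  have hemb : Nonempty (κ ↪ Fin d) := by
    apply Function.Embedding.nonempty_of_card_le
    rw [hcard, Fintype.card_fin]
    exact hd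
  obtain ⟨e⟩ := hemb
  -- the first template
  have hval : ∀ c : Fin ((n + 1) / 2), c.val < n := by
    intro c
    have := c.isLt
    omega
  set τ₀ : κ → Fin n ⊕ Bool := fun k => match k with
    | Sum.inl _ => Sum.inr false
    | Sum.inr (c, _) => Sum.inl ⟨c.val, hval c⟩ with hτ₀
  have hcl : ∀ c : Fin ((n + 1) / 2), cl (⟨c.val, hval c⟩ : Fin n) = c.val := by
    intro c
    unfold cl
    have := c.isLt
    simp only
    omega
  have hbal : Bal m f τ₀ := by
    constructor
    · have h1 : univ.filter (fun k : κ => cc (τ₀ k) = none) =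
          (univ : Finset (Fin m)).map Function.Embedding.inl := by
        ext k
        simp only [mem_filter, mem_univ, true_and, Finset.mem_map]
        rcases k with k | ⟨c, j⟩
        · exact ⟨fun _ => ⟨k, rfl⟩, fun _ => rfl⟩
        · constructor
          · intro h2
            exact absurd h2 (by simp [hτ₀, cc])
          · rintro ⟨a, ha⟩
            cases ha
      rw [h1, Finset.card_map, Finset.card_univ, Fintype.card_fin]
    · intro c hc
      have h1 : univ.filter (fun k : κ => cc (τ₀ k) = some c) =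
          ((univ : Finset (Fin f)).map ⟨fun j => ((⟨c, hc⟩ : Fin ((n + 1) / 2)), j),
            fun a b hab => by simpa using hab⟩).map Function.Embedding.inr := by
        ext k
        simp only [mem_filter, mem_univ, true_and, Finset.mem_map]
        rcases k with k | ⟨c', j⟩
        · constructor
          · intro h2
            exact absurd h2 (by simp [hτ₀, cc])
          · rintro ⟨a, -, ha⟩
            cases ha
        · constructor
          · intro h2
            have h3 : some (cl (⟨c'.val, hval c'⟩ : Fin n)) = some c := h2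
            rw [hcl, Option.some.injEq] at h3
            exact ⟨(⟨c, hc⟩, j), ⟨j, rfl⟩, by
              have h4 : c' = ⟨c, hc⟩ := Fin.ext h3
              rw [h4]; rfl⟩
          · rintro ⟨a, ⟨j', rfl⟩, ha⟩
            have h3 : ((⟨c, hc⟩ : Fin ((n + 1) / 2)), j') = (c', j) := Sum.inr.inj ha
            have h4 : c' = ⟨c, hc⟩ := (congrArg Prod.fst h3).symm
            change some (cl (⟨c'.val, hval c'⟩ : Fin n)) = some c
            rw [hcl, h4]
      rw [h1, Finset.card_map, Finset.card_map, Finset.card_univ, Fintype.card_fin]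
  set ι := {τ : κ → Fin n ⊕ Bool // Bal m f τ} with hι
  set A : ι → Finset (Fin d → Fin n) := fun i => ln e i.1 with hA
  have hAcard : ∀ i, (A i).card = n := fun i => card_ln e i.1 (i.2.exists_inr hm)
  have hΔ : ∀ x y, x ≠ y → (univ.filter (fun i => x ∈ A i ∧ y ∈ A i)).card ≤ 2 := by
    intro x y hxy
    obtain ⟨k, hk⟩ := pair_degree (κ := κ) e x y hxy
    have h1 : (univ.filter (fun i => x ∈ A i ∧ y ∈ A i)).card ≤
        ({Sum.inr false, Sum.inr true} : Finset (Fin n ⊕ Bool)).card := by
      refine Finset.card_le_card_of_injOn (fun i => ext e i.1 k) ?_ ?_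
      · intro i hi
        simp only [Finset.coe_filter, mem_univ, true_and, Set.mem_ofPred_eq] at hi
        obtain ⟨⟨b, hb⟩, -⟩ := hk i.1 i.1 hi.1 hi.2 hi.1 hi.2
        simp only [hb, Finset.coe_insert, Finset.coe_singleton]
        cases b <;> simp
      · intro i hi j hj hij
        simp only [Finset.coe_filter, mem_univ, true_and, Set.mem_ofPred_eq] at hi hj
        exact Subtype.ext ((hk i.1 j.1 hi.1 hi.2 hj.1 hj.2).2 hij)
    refine le_trans h1 ?_
    exact Finset.card_le_two
  have hcount := count (n := n) (κ := κ) e (m := m) (f := f) hm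
  have hne : 0 < Fintype.card ι := Fintype.card_pos_iff.mpr ⟨⟨τ₀, hbal⟩⟩
  have hUpos : 0 < (univ.biUnion A).card := by
    rw [Finset.card_pos]
    obtain ⟨p, hp⟩ : (A ⟨τ₀, hbal⟩).Nonempty := by
      rw [← Finset.card_pos, hAcard]; omega
    exact ⟨p, Finset.mem_biUnion.mpr ⟨⟨τ₀, hbal⟩, mem_univ _, hp⟩⟩
  have hbig : 2 * 2 ^ (n - 2) * (univ.biUnion A).card < 2 * Fintype.card ι := by
    have h1 : n * 2 ^ (n - 2) * (univ.biUnion A).card < n * Fintype.card ι :=
      lt_of_lt_of_le (Nat.mul_lt_mul_of_pos_right h hUpos) hcount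
    have h2 : 2 ^ (n - 2) * (univ.biUnion A).card < Fintype.card ι := by
      rw [mul_assoc] at h1
      exact Nat.lt_of_mul_lt_mul_left h1
    rw [mul_assoc]
    omega
  obtain ⟨σ, hσ, hplay⟩ := criterion A n 2 hAcard hΔ hbig
  refine ⟨σ, hσ, fun π hπ => ?_⟩
  obtain ⟨i, hi⟩ := hplay π hπ
  exact ⟨_, isLine_ln hn e i.1 (i.2.exists_inr hm), fun p hp => hi p (by simpa using hp)⟩

end Pool.Agent.WW12
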